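import Pool.Agent.U498.WAP.Main

/-!
# MP_c68506_an, Q1: full positive answer

If `WAP(S)` has a left invariant mean, then the semitopological semigroup `S` has property (F). No
separability is assumed.

Proof. The enveloping semigroup `Γ`, the closure of `{T_s}` in `(C, wk)^C`, is a compact
semitopological semigroup of nonexpansive maps. By Grothendieck's theorem `s ↦ φ(T_s)` is in `WAP(S)`
for `φ ∈ C(Γ)`, and the mean gives a functional on `C(Γ)` which is invariant under all of `Γ`. So `Γ`
has a unique minimal closed right ideal `R`, and `g R = R` for every `g ∈ Γ`. Take a minimal nonempty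
closed convex invariant set `A`, an idempotent `e ∈ R` and `x = e x₀` with `x₀ ∈ A`. Then `T_s K = K`
for `K = R x ⊆ A`, and `R` acts on `K` by bijective isometries. Every countable set of points of `K`
lies in the orbit `H x` of a closed, topologically countably generated subsemigroup `H ⊆ R`; this
orbit is weakly compact and separable for every seminorm, so by Baire's theorem and homogeneity it is
totally bounded for every seminorm. Hence `K` is totally bounded, and De Marr's argument shows that
`K` is a point.
-/

namespace Pool.Agent.Results.MP_c68506_an.NoSeparability

open Pool.Agent.U498.WAP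

/-- Every semitopological semigroup `S` for which `WAP(S)` has a left invariant mean has
property (F). -/
theorem result.{v, w} {𝕜 𝕂 : Type*} [RCLike 𝕜] [RCLike 𝕂] {S : Type*} [Semigroup S]
    [TopologicalSpace S] (hS : IsSemitopological S)
    (h : ∃ m : WAP 𝕜 hS →ₗ[𝕜] 𝕜, IsLIM 𝕜 hS m) : PropertyF.{v, w} 𝕂 S := by
  obtain ⟨m, hm⟩ := h
  exact main hS m hm

end Pool.Agent.Results.MP_c68506_an.NoSeparability
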